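import Mathlib
import Pool.Agent.H85.LK.Targets

set_option autoImplicit false

/-!
# MP_8f7db2_an: planar sets with rotational symmetry of order at least six

Definitions and targets of the modules.
-/

open MeasureTheory Set
open scoped ENNReal

namespace Pool.Agent.H92.RK

/-- the Euclidean plane -/
abbrev E2 := EuclideanSpace ℝ (Fin 2)

/-- polar coordinates -/
noncomputable def pt (r θ : ℝ) : E2 := !₂[r * Real.cos θ, r * Real.sin θ]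

/-- rotation by the angle `α` -/
noncomputable def rot (α : ℝ) (z : E2) : E2 :=
  !₂[Real.cos α * z 0 - Real.sin α * z 1, Real.sin α * z 0 + Real.cos α * z 1]

/-- the ground state `t * c t` of `-w'' = (τ / t) w` on `(0, 1)` -/
structure Bes (τ : ℝ) (c w₁ : ℝ → ℝ) : Prop where
  one_le : 1 ≤ τ
  le : τ ≤ 15 / 4
  smooth : ContDiff ℝ (⊤ : ℕ∞) c
  dw : ∀ t, HasDerivAt (fun t => t * c t) (w₁ t) t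
  dw1 : ∀ t, HasDerivAt w₁ (-τ * c t) t
  zero : c 0 = 1
  pos : ∀ t, 0 ≤ t → t < 1 → 0 < c t
  one : c 1 = 0

/-- the length of the positive part of `S` for the measure `2 r dr` -/
noncomputable def rv (S : Set ℝ) : ℝ≥0∞ := ∫⁻ r in S ∩ Ioi 0, ENNReal.ofReal (2 * r)

/-- the potential -/
noncomputable def Up (τ : ℝ) (ρ : ℝ≥0∞) (x : ℝ) : ℝ≥0∞ :=
  if x ≤ 3 / 2 then ENNReal.ofReal (4 * τ) / ρ else ENNReal.ofReal (4 * τ * x) / ρ ^ 2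

/-- a continuously differentiable function of one real variable with its derivative -/
def C1 {F : Type} [NormedAddCommGroup F] [NormedSpace ℝ F] (f f' : ℝ → F) : Prop :=
  (∀ x, HasDerivAt f (f' x) x) ∧ Continuous f'

/-- a function in polar coordinates, with compact support in `Ω`, and its derivatives -/
structure PF (Ω : Set E2) (W Wr Wt : ℝ → ℝ → ℂ) : Prop where
  c0 : Continuous (Function.uncurry W)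
  cr : Continuous (Function.uncurry Wr)
  ct : Continuous (Function.uncurry Wt)
  dr : ∀ r θ, HasDerivAt (fun s => W s θ) (Wr r θ) r
  dt : ∀ r θ, HasDerivAt (fun s => W r s) (Wt r θ) θ
  per : ∀ r θ, W r (θ + 2 * Real.pi) = W r θ
  perr : ∀ r θ, Wr r (θ + 2 * Real.pi) = Wr r θ
  pert : ∀ r θ, Wt r (θ + 2 * Real.pi) = Wt r θ
  bd : ∃ R : ℝ, 0 < R ∧ ∀ r θ, R ≤ r → W r θ = 0
  zero : ∀ θ θ', W 0 θ = W 0 θ'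
  supp : ∀ θ, tsupport (fun r => W r θ) ⊆ {r | pt r θ ∈ Ω}

/-- the angular frequencies of `W` are congruent to `s` modulo `k` -/
def QP (k : ℕ) (s : ℤ) (W : ℝ → ℝ → ℂ) : Prop :=
  ∀ r θ, W r (θ + 2 * Real.pi / k) =
    Complex.exp (((2 * Real.pi * (s : ℝ) / (k : ℝ) : ℝ) : ℂ) * Complex.I) * W r θ

/-- the same for a function of the angle -/
def QPc (k : ℕ) (s : ℤ) (g : ℝ → ℂ) : Prop :=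
  ∀ θ, g (θ + 2 * Real.pi / k) =
    Complex.exp (((2 * Real.pi * (s : ℝ) / (k : ℝ) : ℝ) : ℂ) * Complex.I) * g θ

/-- the squared norm in polar coordinates -/
noncomputable def NN (W : ℝ → ℝ → ℂ) : ℝ≥0∞ :=
  ∫⁻ r in Ioi (0 : ℝ), ∫⁻ θ in Ioo (-Real.pi) Real.pi, ENNReal.ofReal (‖W r θ‖ ^ 2 * r)

/-- the energy in polar coordinates -/
noncomputable def EN (Wr Wt : ℝ → ℝ → ℂ) : ℝ≥0∞ :=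
  ∫⁻ r in Ioi (0 : ℝ), ∫⁻ θ in Ioo (-Real.pi) Real.pi,
    ENNReal.ofReal ((‖Wr r θ‖ ^ 2 + ‖Wt r θ‖ ^ 2 / r ^ 2) * r)

/-- `Ω` is invariant under the rotation by `2 π / k` about the origin -/
def Inv (k : ℕ) (Ω : Set E2) : Prop := ∀ r θ, pt r θ ∈ Ω → pt r (θ + 2 * Real.pi / k) ∈ Ω

/-- the two special radii -/
noncomputable def r₁ : ℝ := Real.sqrt (7 / 20)
noncomputable def r₂ : ℝ := Real.sqrt (19 / 10)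

/-! ### A. The Bessel function -/

/-- BS1: the power series `C t = ∑ (-t)^m / (m! (m+1)!)` and `C₀ = (t C)'` -/
def T_BS1 : Prop := ∃ C C₀ : ℝ → ℝ, ContDiff ℝ (⊤ : ℕ∞) C ∧
  (∀ t, HasDerivAt (fun t => t * C t) (C₀ t) t) ∧ (∀ t, HasDerivAt C₀ (-C t) t) ∧ C 0 = 1 ∧
  C (15 / 4) < 0 ∧ ∀ t, 0 ≤ t → t ≤ 1 → 0 < C t

/-- BS2: first zero and rescaling -/
def T_BS2 : Prop := ∃ (τ : ℝ) (c w₁ : ℝ → ℝ), Bes τ c w₁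

/-! ### B. Rays -/

/-- RA1: the ray inequality, real form -/
def T_RA1 : Prop := ∀ (τ : ℝ) (c w₁ : ℝ → ℝ), Bes τ c w₁ → ∀ (S : Set ℝ) (ρ : ℝ) (f f' : ℝ → ℝ),
  IsOpen S → 0 < ρ → rv S = ENNReal.ofReal ρ → C1 f f' → f 0 = 0 → (∃ R, ∀ r, R ≤ r → f r = 0) →
  tsupport f ⊆ S →
  IntegrableOn (fun r => (f' r ^ 2 + f r ^ 2 / r ^ 2) * r) (Ioi 0) ∧
  IntegrableOn (fun r => 4 * τ * r ^ 2 / (ρ * min (r ^ 2) ρ) * f r ^ 2 * r) (Ioi 0) ∧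
  ∫ r in Ioi (0 : ℝ), 4 * τ * r ^ 2 / (ρ * min (r ^ 2) ρ) * f r ^ 2 * r ≤
    ∫ r in Ioi (0 : ℝ), (f' r ^ 2 + f r ^ 2 / r ^ 2) * r

/-- RA2: the ray inequality for complex functions in `ℝ≥0∞` -/
def T_RA2 : Prop := ∀ (τ : ℝ) (c w₁ : ℝ → ℝ), Bes τ c w₁ → ∀ (S : Set ℝ) (f f' : ℝ → ℂ),
  IsOpen S → C1 f f' → f 0 = 0 → (∃ R, ∀ r, R ≤ r → f r = 0) → tsupport f ⊆ S →
  ∫⁻ r in Ioi (0 : ℝ), Up τ (rv S) (r ^ 2) * ENNReal.ofReal (‖f r‖ ^ 2 * r) ≤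
    ∫⁻ r in Ioi (0 : ℝ), ENNReal.ofReal ((‖f' r‖ ^ 2 + ‖f r‖ ^ 2 / r ^ 2) * r)

/-- RB1: the ray inequality with free left end, real form -/
def T_RB1 : Prop := ∀ (S : Set ℝ) (ρ a : ℝ) (f f' : ℝ → ℝ),
  IsOpen S → 0 < ρ → 0 < a → rv S = ENNReal.ofReal ρ → C1 f f' → (∃ R, ∀ r, R ≤ r → f r = 0) →
  tsupport f ⊆ S →
  IntegrableOn (fun r => f' r ^ 2 * r) (Ioi a) ∧
  IntegrableOn (fun r => Real.pi ^ 2 * r ^ 2 / ρ ^ 2 * f r ^ 2 * r) (Ioi a) ∧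
  ∫ r in Ioi a, Real.pi ^ 2 * r ^ 2 / ρ ^ 2 * f r ^ 2 * r ≤ ∫ r in Ioi a, f' r ^ 2 * r

/-- RB2: the same for complex functions in `ℝ≥0∞` -/
def T_RB2 : Prop := ∀ (S : Set ℝ) (a : ℝ) (f f' : ℝ → ℂ),
  IsOpen S → 0 < a → C1 f f' → (∃ R, ∀ r, R ≤ r → f r = 0) → tsupport f ⊆ S →
  ∫⁻ r in Ioi a, ENNReal.ofReal (Real.pi ^ 2 * r ^ 2) / rv S ^ 2 *
      ENNReal.ofReal (‖f r‖ ^ 2 * r) ≤
    ∫⁻ r in Ioi a, ENNReal.ofReal (‖f' r‖ ^ 2 * r)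

/-- N1: radial inequality on `[0, r₁]` -/
def T_N1 : Prop := ∀ b b' : ℝ → ℝ, C1 b b' → b r₁ = 0 →
  15 * ∫ r in (0 : ℝ)..r₁, b r ^ 2 * r ≤ ∫ r in (0 : ℝ)..r₁, b' r ^ 2 * r

/-- N2: radial inequality on `[r₁, r₂]` -/
def T_N2 : Prop := ∀ b b' : ℝ → ℝ, C1 b b' → b r₁ = 0 → b r₂ = 0 →
  15 * ∫ r in r₁..r₂, b r ^ 2 * r ≤ ∫ r in r₁..r₂, b' r ^ 2 * r

/-- N3: radial inequality for complex functions on `[0, r₂]` -/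
def T_N3 : Prop := ∀ b b' : ℝ → ℂ, C1 b b' → b r₁ = 0 → b r₂ = 0 →
  15 * ∫ r in (0 : ℝ)..r₂, ‖b r‖ ^ 2 * r ≤ ∫ r in (0 : ℝ)..r₂, ‖b' r‖ ^ 2 * r

/-! ### C. The circle -/

/-- CIL: sharp inequality for functions vanishing at both ends -/
def T_CIL : Prop := ∀ h h' : ℝ → ℝ, C1 h h' → (∀ x, 0 ≤ h x) → h 0 = 0 → h 1 = 0 →
  27 / 4 * (∫ x in (0 : ℝ)..1, h x ^ 2) ^ 2 ≤
    (∫ x in (0 : ℝ)..1, h' x ^ 2) * (∫ x in (0 : ℝ)..1, h x ^ (2 / 3 : ℝ)) ^ 3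

/-- CIM: reverse Minkowski inequality -/
def T_CIM : Prop := ∀ (h : ℝ → ℝ) (m : ℝ), Continuous h → (∀ x, 0 ≤ h x) → 0 ≤ m →
  ((∫ x in (0 : ℝ)..1, h x ^ (2 / 3 : ℝ)) ^ (3 / 2 : ℝ) + m) ^ 2 ≤
    (∫ x in (0 : ℝ)..1, (h x + m) ^ (2 / 3 : ℝ)) ^ 3

/-- CIH: interpolation -/
def T_CIH : Prop := ∀ h : ℝ → ℝ, Continuous h → (∀ x, 0 ≤ h x) →
  (∫ x in (0 : ℝ)..1, h x) ^ 2 ≤
    (∫ x in (0 : ℝ)..1, h x ^ (2 / 3 : ℝ)) ^ (3 / 2 : ℝ) *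
      (∫ x in (0 : ℝ)..1, h x ^ 2) ^ (1 / 2 : ℝ)

/-- CIA: the algebraic inequality -/
def T_CIA : Prop := ∀ X e n q a m : ℝ, 5 / 4 ≤ X → 0 ≤ e → 0 ≤ n → 0 ≤ q → 0 ≤ a → 0 ≤ m →
  27 / 4 * q ^ 4 ≤ e * n ^ 2 → a ^ 2 ≤ n * q →
  q ^ 2 + 2 * m * a + m ^ 2 ≤ 1 / (25 * X) * e + X * (n + m) ^ 2

/-- CI: the circle inequality -/
def T_CI : Prop := ∀ (f f' : ℝ → ℝ) (X : ℝ), C1 f f' → (∀ x, 0 ≤ f x) → (∀ x, f (x + 1) = f x) →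
  5 / 4 ≤ X →
  ∫ x in (0 : ℝ)..1, f x ^ 2 ≤
    1 / (25 * X) * (∫ x in (0 : ℝ)..1, f' x ^ 2) +
      X * (∫ x in (0 : ℝ)..1, f x ^ (2 / 3 : ℝ)) ^ 3

/-- CIC: the circle inequality for complex functions with `2 π / k`-periodic modulus -/
def T_CIC : Prop := ∀ (k : ℕ) (g g' : ℝ → ℂ) (X : ℝ), 6 ≤ k → C1 g g' →
  (∀ θ, ‖g (θ + 2 * Real.pi / k)‖ = ‖g θ‖) → 5 / 4 ≤ X →
  ∫ θ in (-Real.pi)..Real.pi, ‖g θ‖ ^ 2 ≤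
    Real.pi ^ 2 / (225 * X) * (∫ θ in (-Real.pi)..Real.pi, ‖g' θ‖ ^ 2) +
      X / (4 * Real.pi ^ 2) * (∫ θ in (-Real.pi)..Real.pi, ‖g θ‖ ^ (2 / 3 : ℝ)) ^ 3

/-- FOU: Parseval with one frequency singled out -/
def T_FOU : Prop := ∀ (k : ℕ) (s n₀ : ℤ) (L : ℝ) (g g' : ℝ → ℂ), 0 < k → C1 g g' →
  QPc k s g → (k : ℤ) ∣ n₀ - s → (∀ n : ℤ, (k : ℤ) ∣ n - s → n ≠ n₀ → L ≤ (n : ℝ) ^ 2) →
  L * (∫ θ in (-Real.pi)..Real.pi, ‖g θ‖ ^ 2) - (L - (n₀ : ℝ) ^ 2) / (2 * Real.pi) *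
      ‖∫ θ in (-Real.pi)..Real.pi, g θ * Complex.exp (-((n₀ : ℂ) * θ * Complex.I))‖ ^ 2 ≤
    ∫ θ in (-Real.pi)..Real.pi, ‖g' θ‖ ^ 2

/-- WIR: Wirtinger inequality for the modulus -/
def T_WIR : Prop := ∀ (k : ℕ) (g g' : ℝ → ℂ), 0 < k → C1 g g' →
  (∀ θ, ‖g (θ + 2 * Real.pi / k)‖ = ‖g θ‖) →
  (k : ℝ) ^ 2 * ((∫ θ in (-Real.pi)..Real.pi, ‖g θ‖ ^ 2) -
      (∫ θ in (-Real.pi)..Real.pi, ‖g θ‖) ^ 2 / (2 * Real.pi)) ≤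
    ∫ θ in (-Real.pi)..Real.pi, ‖g' θ‖ ^ 2

/-- CSN: Cauchy-Schwarz with the weight `1 / ρ` -/
def T_CSN : Prop := ∀ (g : ℝ → ℝ) (ρ : ℝ → ℝ≥0∞), Continuous g → (∀ θ, 0 ≤ g θ) → Measurable ρ →
  ∫⁻ θ in Ioo (-Real.pi) Real.pi, ρ θ ≤ ENNReal.ofReal (2 * Real.pi) →
  (∀ θ, ρ θ = 0 → g θ = 0) →
  ENNReal.ofReal ((∫ θ in (-Real.pi)..Real.pi, g θ) ^ 2 / (2 * Real.pi)) ≤
    ∫⁻ θ in Ioo (-Real.pi) Real.pi, ENNReal.ofReal (g θ ^ 2) / ρ θ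

/-- HOL: Hoelder with the weight `1 / ρ ^ 2` -/
def T_HOL : Prop := ∀ (g : ℝ → ℝ) (ρ : ℝ → ℝ≥0∞), Continuous g → (∀ θ, 0 ≤ g θ) → Measurable ρ →
  ∫⁻ θ in Ioo (-Real.pi) Real.pi, ρ θ ≤ ENNReal.ofReal (2 * Real.pi) →
  (∀ θ, ρ θ = 0 → g θ = 0) →
  ENNReal.ofReal ((∫ θ in (-Real.pi)..Real.pi, g θ ^ (2 / 3 : ℝ)) ^ 3 / (4 * Real.pi ^ 2)) ≤
    ∫⁻ θ in Ioo (-Real.pi) Real.pi, ENNReal.ofReal (g θ ^ 2) / ρ θ ^ 2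

/-- NEA: circles of small radius -/
def T_NEA : Prop := ∀ (k : ℕ) (s : ℤ) (τ x : ℝ) (g g' : ℝ → ℂ) (ρ : ℝ → ℝ≥0∞), 6 ≤ k →
  ¬ (k : ℤ) ∣ s → 0 < τ → τ ≤ 15 / 4 → 0 < x → x ≤ 3 / 2 → C1 g g' → QPc k s g → Measurable ρ →
  ∫⁻ θ in Ioo (-Real.pi) Real.pi, ρ θ ≤ ENNReal.ofReal (2 * Real.pi) →
  (∀ θ, ρ θ = 0 → g θ = 0) →
  (∫ θ in (-Real.pi)..Real.pi, ‖g θ‖ ^ 2 ≤ ∫ θ in (-Real.pi)..Real.pi, ‖g' θ‖ ^ 2) ∧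
  ENNReal.ofReal (4 * τ * ∫ θ in (-Real.pi)..Real.pi, ‖g θ‖ ^ 2) ≤
    ENNReal.ofReal (((∫ θ in (-Real.pi)..Real.pi, ‖g' θ‖ ^ 2) -
      ∫ θ in (-Real.pi)..Real.pi, ‖g θ‖ ^ 2) / x) +
    ∫⁻ θ in Ioo (-Real.pi) Real.pi, ENNReal.ofReal (4 * τ) / ρ θ * ENNReal.ofReal (‖g θ‖ ^ 2)

/-- FAR: circles of large radius -/
def T_FAR : Prop := ∀ (k : ℕ) (s : ℤ) (τ x : ℝ) (g g' : ℝ → ℂ) (ρ : ℝ → ℝ≥0∞), 6 ≤ k →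
  ¬ (k : ℤ) ∣ s → 1 ≤ τ → τ ≤ 15 / 4 → 3 / 2 ≤ x → C1 g g' → QPc k s g → Measurable ρ →
  ∫⁻ θ in Ioo (-Real.pi) Real.pi, ρ θ ≤ ENNReal.ofReal (2 * Real.pi) →
  (∀ θ, ρ θ = 0 → g θ = 0) →
  (∫ θ in (-Real.pi)..Real.pi, ‖g θ‖ ^ 2 ≤ ∫ θ in (-Real.pi)..Real.pi, ‖g' θ‖ ^ 2) ∧
  ENNReal.ofReal (4 * τ * ∫ θ in (-Real.pi)..Real.pi, ‖g θ‖ ^ 2) ≤
    ENNReal.ofReal (((∫ θ in (-Real.pi)..Real.pi, ‖g' θ‖ ^ 2) -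
      ∫ θ in (-Real.pi)..Real.pi, ‖g θ‖ ^ 2) / x) +
    ∫⁻ θ in Ioo (-Real.pi) Real.pi,
      ENNReal.ofReal (4 * τ * x) / ρ θ ^ 2 * ENNReal.ofReal (‖g θ‖ ^ 2)

/-- FA0: circles of large radius, invariant functions -/
def T_FA0 : Prop := ∀ (k : ℕ) (x : ℝ) (g g' : ℝ → ℂ) (ρ : ℝ → ℝ≥0∞), 6 ≤ k →
  19 / 10 ≤ x → C1 g g' → QPc k 0 g → Measurable ρ →
  ∫⁻ θ in Ioo (-Real.pi) Real.pi, ρ θ ≤ ENNReal.ofReal (2 * Real.pi) →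
  (∀ θ, ρ θ = 0 → g θ = 0) →
  ENNReal.ofReal (15 * ∫ θ in (-Real.pi)..Real.pi, ‖g θ‖ ^ 2) ≤
    ENNReal.ofReal ((∫ θ in (-Real.pi)..Real.pi, ‖g' θ‖ ^ 2) / x) +
    ∫⁻ θ in Ioo (-Real.pi) Real.pi,
      ENNReal.ofReal (Real.pi ^ 2 * x) / ρ θ ^ 2 * ENNReal.ofReal (‖g θ‖ ^ 2)

/-! ### D. Polar coordinates -/

/-- LPO: the integral in polar coordinates -/
def T_LPO : Prop := ∀ h : E2 → ℝ≥0∞, Measurable h →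
  ∫⁻ z, h z = ∫⁻ r in Ioi (0 : ℝ), ∫⁻ θ in Ioo (-Real.pi) Real.pi, h (pt r θ) * ENNReal.ofReal r

/-- RHO: the lengths of the rays -/
def T_RHO : Prop := ∀ Ω : Set E2, IsOpen Ω →
  Measurable (fun θ => rv {r | pt r θ ∈ Ω}) ∧
  ∫⁻ θ in Ioo (-Real.pi) Real.pi, rv {r | pt r θ ∈ Ω} = 2 * volume Ω ∧
  (∀ θ, rv {r | pt r θ ∈ Ω} = 0 → ∀ r, 0 < r → pt r θ ∉ Ω) ∧
  ∀ θ, IsOpen {r | pt r θ ∈ Ω}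

/-- POF: a smooth function in polar coordinates -/
def T_POF : Prop := ∀ (Ω : Set E2) (u : E2 → ℝ), ContDiff ℝ (⊤ : ℕ∞) u → HasCompactSupport u →
  tsupport u ⊆ Ω → ∃ Ur Ut : ℝ → ℝ → ℂ, PF Ω (fun r θ => (u (pt r θ) : ℂ)) Ur Ut ∧
    NN (fun r θ => (u (pt r θ) : ℂ)) = ENNReal.ofReal (∫ z, u z ^ 2) ∧
    EN Ur Ut = ENNReal.ofReal (∫ z, ‖fderiv ℝ u z‖ ^ 2)

/-- DFA: the components of a function in polar coordinates -/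
def T_DFA : Prop := ∀ (k : ℕ) (Ω : Set E2) (U Ur Ut : ℝ → ℝ → ℂ), 0 < k → IsOpen Ω → Inv k Ω →
  PF Ω U Ur Ut → ∃ W Wr Wt : ℕ → ℝ → ℝ → ℂ,
    (∀ s, PF Ω (W s) (Wr s) (Wt s) ∧ QP k s (W s)) ∧
    (∀ r, ∫ θ in (-Real.pi)..Real.pi, W 0 r θ = ∫ θ in (-Real.pi)..Real.pi, U r θ) ∧
    (∀ r, ∑ s ∈ Finset.range k, ∫ θ in (-Real.pi)..Real.pi, ‖W s r θ‖ ^ 2 =
      ∫ θ in (-Real.pi)..Real.pi, ‖U r θ‖ ^ 2) ∧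
    (∀ r, ∑ s ∈ Finset.range k, ∫ θ in (-Real.pi)..Real.pi, ‖Wr s r θ‖ ^ 2 =
      ∫ θ in (-Real.pi)..Real.pi, ‖Ur r θ‖ ^ 2) ∧
    (∀ r, ∑ s ∈ Finset.range k, ∫ θ in (-Real.pi)..Real.pi, ‖Wt s r θ‖ ^ 2 =
      ∫ θ in (-Real.pi)..Real.pi, ‖Ut r θ‖ ^ 2)

/-- DFB: the norm and the energy add up -/
def T_DFB : Prop := ∀ (k : ℕ) (Ω : Set E2) (U Ur Ut : ℝ → ℝ → ℂ), 0 < k → IsOpen Ω → Inv k Ω →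
  PF Ω U Ur Ut → ∃ W Wr Wt : ℕ → ℝ → ℝ → ℂ,
    (∀ s, PF Ω (W s) (Wr s) (Wt s) ∧ QP k s (W s)) ∧
    (∀ r, ∫ θ in (-Real.pi)..Real.pi, W 0 r θ = ∫ θ in (-Real.pi)..Real.pi, U r θ) ∧
    NN U = ∑ s ∈ Finset.range k, NN (W s) ∧
    EN Ur Ut = ∑ s ∈ Finset.range k, EN (Wr s) (Wt s)

/-! ### E. Assembly -/

/-- CLA: components with nonzero frequency -/
def T_CLA : Prop := ∀ (τ : ℝ) (c w₁ : ℝ → ℝ) (k : ℕ) (s : ℤ) (Ω : Set E2) (W Wr Wt : ℝ → ℝ → ℂ),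
  Bes τ c w₁ → 6 ≤ k → ¬ (k : ℤ) ∣ s → IsOpen Ω → volume Ω = ENNReal.ofReal Real.pi →
  PF Ω W Wr Wt → QP k s W → ENNReal.ofReal (4 * τ) * NN W ≤ EN Wr Wt

/-- CB1: the invariant component, small radii -/
def T_CB1 : Prop := ∀ (k : ℕ) (Ω : Set E2) (W Wr Wt : ℝ → ℝ → ℂ),
  6 ≤ k → PF Ω W Wr Wt → QP k 0 W →
  ∫ θ in (-Real.pi)..Real.pi, W r₁ θ = 0 → ∫ θ in (-Real.pi)..Real.pi, W r₂ θ = 0 →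
  15 * ∫⁻ r in Ioc (0 : ℝ) r₂, ∫⁻ θ in Ioo (-Real.pi) Real.pi, ENNReal.ofReal (‖W r θ‖ ^ 2 * r) ≤
    ∫⁻ r in Ioc (0 : ℝ) r₂, ∫⁻ θ in Ioo (-Real.pi) Real.pi,
      ENNReal.ofReal ((‖Wr r θ‖ ^ 2 + ‖Wt r θ‖ ^ 2 / r ^ 2) * r)

/-- CB2: the invariant component, large radii -/
def T_CB2 : Prop := ∀ (k : ℕ) (Ω : Set E2) (W Wr Wt : ℝ → ℝ → ℂ),
  6 ≤ k → IsOpen Ω → volume Ω = ENNReal.ofReal Real.pi → PF Ω W Wr Wt → QP k 0 W →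
  15 * ∫⁻ r in Ioi r₂, ∫⁻ θ in Ioo (-Real.pi) Real.pi, ENNReal.ofReal (‖W r θ‖ ^ 2 * r) ≤
    ∫⁻ r in Ioi r₂, ∫⁻ θ in Ioo (-Real.pi) Real.pi,
      ENNReal.ofReal ((‖Wr r θ‖ ^ 2 + ‖Wt r θ‖ ^ 2 / r ^ 2) * r)

/-- CLB: the invariant component -/
def T_CLB : Prop := ∀ (k : ℕ) (Ω : Set E2) (W Wr Wt : ℝ → ℝ → ℂ),
  6 ≤ k → IsOpen Ω → volume Ω = ENNReal.ofReal Real.pi → PF Ω W Wr Wt → QP k 0 W →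
  ∫ θ in (-Real.pi)..Real.pi, W r₁ θ = 0 → ∫ θ in (-Real.pi)..Real.pi, W r₂ θ = 0 →
  15 * NN W ≤ EN Wr Wt

/-- KEY: the inequality for one function -/
def T_KEY : Prop := ∀ (τ : ℝ) (c w₁ : ℝ → ℝ) (k : ℕ) (Ω : Set E2) (u : E2 → ℝ),
  Bes τ c w₁ → 6 ≤ k → IsOpen Ω → volume Ω = ENNReal.ofReal Real.pi → Inv k Ω →
  ContDiff ℝ (⊤ : ℕ∞) u → HasCompactSupport u → tsupport u ⊆ Ω →
  ∫ θ in (-Real.pi)..Real.pi, u (pt r₁ θ) = 0 → ∫ θ in (-Real.pi)..Real.pi, u (pt r₂ θ) = 0 →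
  4 * τ * ∫ z, u z ^ 2 ≤ ∫ z, ‖fderiv ℝ u z‖ ^ 2

/-- LOW: the lower bound -/
def T_LOW : Prop := ∀ (τ : ℝ) (c w₁ : ℝ → ℝ) (k : ℕ) (Ω : Set E2) (a : ℝ),
  Bes τ c w₁ → 6 ≤ k → IsOpen Ω → volume Ω = ENNReal.ofReal Real.pi → Inv k Ω →
  a ∈ Pool.Agent.H85.LK.adm 2 3 Ω → 4 * τ ≤ a

/-- UP1: a test function on the interval -/
def T_UP1 : Prop := ∀ (τ : ℝ) (c w₁ : ℝ → ℝ) (a : ℝ), Bes τ c w₁ → 4 * τ < a →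
  ∃ (F : ℝ → ℝ) (δ : ℝ), ContDiff ℝ (⊤ : ℕ∞) F ∧ 0 < δ ∧ (∀ x, x ∉ Icc δ (1 - δ) → F x = 0) ∧
    0 < ∫ x in (0 : ℝ)..1, F x ^ 2 / x ∧
    4 * ∫ x in (0 : ℝ)..1, deriv F x ^ 2 ≤ a * ∫ x in (0 : ℝ)..1, F x ^ 2 / x

/-- UP2: three test functions on the disk -/
def T_UP2 : Prop := ∀ (F : ℝ → ℝ) (δ a : ℝ), ContDiff ℝ (⊤ : ℕ∞) F → 0 < δ →
  (∀ x, x ∉ Icc δ (1 - δ) → F x = 0) → 0 < ∫ x in (0 : ℝ)..1, F x ^ 2 / x →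
  4 * ∫ x in (0 : ℝ)..1, deriv F x ^ 2 ≤ a * ∫ x in (0 : ℝ)..1, F x ^ 2 / x →
  a ∈ Pool.Agent.H85.LK.adm 2 3 (Metric.ball (0 : E2) 1)

/-- TRA: translation -/
def T_TRA : Prop := ∀ (n : ℕ) (p : E2) (Ω : Set E2),
  Pool.Agent.H85.LK.lam 2 n ((fun x => p + x) ⁻¹' Ω) = Pool.Agent.H85.LK.lam 2 n Ω

/-- FIN: the theorem -/
def T_FIN : Prop := ∀ (k : ℕ) (r : ℝ) (p : E2) (Ω : Set E2), 6 ≤ k → 0 < r → IsOpen Ω →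
  (∀ x ∈ Ω, p + rot (2 * Real.pi / k) (x - p) ∈ Ω) →
  volume Ω = volume (Metric.ball (0 : E2) r) →
  Pool.Agent.H85.LK.lam 2 3 (Metric.ball (0 : E2) r) ≤ Pool.Agent.H85.LK.lam 2 3 Ω

end Pool.Agent.H92.RK
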