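import Pool.Agent.H92.RK.Targets

set_option autoImplicit false

open MeasureTheory Set
open scoped ENNReal

namespace Pool.Agent.H92.RK

theorem pf_KEY (hPOF : T_POF) (hDFB : T_DFB) (hCLA : T_CLA) (hCLB : T_CLB) : T_KEY := by
  intro τ c w₁ k Ω u hB hk hΩ hvol hinv hu hcs hsu h1 h2
  obtain ⟨Ur, Ut, hPF, hNN, hEN⟩ := hPOF Ω u hu hcs hsu
  have hk0 : 0 < k := by omega
  obtain ⟨W, Wr, Wt, hW, hint, hsN, hsE⟩ := hDFB k Ω _ Ur Ut hk0 hΩ hinv hPF
  have hτ : 4 * τ ≤ 15 := by have := hB.le; linarith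
  have hτ0 : 0 ≤ 4 * τ := by have := hB.one_le; linarith
  have hzero : ∀ r, ∫ θ in (-Real.pi)..Real.pi, u (pt r θ) = 0 →
      ∫ θ in (-Real.pi)..Real.pi, W 0 r θ = 0 := by
    intro r hr
    rw [hint r]
    have h3 : ∫ θ in (-Real.pi)..Real.pi, ((u (pt r θ) : ℝ) : ℂ) =
        ((∫ θ in (-Real.pi)..Real.pi, u (pt r θ) : ℝ) : ℂ) := intervalIntegral.integral_ofReal
    rw [h3, hr, Complex.ofReal_zero]
  have h15 : ENNReal.ofReal (4 * τ) ≤ 15 := by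
    have h4 : ENNReal.ofReal (4 * τ) ≤ ENNReal.ofReal 15 := ENNReal.ofReal_le_ofReal hτ
    refine h4.trans (le_of_eq ?_)
    simp
  have hall : ∀ s ∈ Finset.range k,
      ENNReal.ofReal (4 * τ) * NN (W s) ≤ EN (Wr s) (Wt s) := by
    intro s hs
    rcases Nat.eq_zero_or_pos s with h0 | h0
    · subst h0
      have hq : QP k 0 (W 0) := by
        have h5 := (hW 0).2
        simpa using h5
      have h6 := hCLB k Ω (W 0) (Wr 0) (Wt 0) hk hΩ hvol (hW 0).1 hq (hzero _ h1) (hzero _ h2)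
      calc ENNReal.ofReal (4 * τ) * NN (W 0) ≤ 15 * NN (W 0) := by gcongr
        _ ≤ EN (Wr 0) (Wt 0) := h6
    · have hnd : ¬ (k : ℤ) ∣ (s : ℤ) := by
        intro h7
        have h8 : k ∣ s := by exact_mod_cast h7
        exact absurd (Nat.le_of_dvd h0 h8) (by simpa using hs)
      exact hCLA τ c w₁ k (s : ℤ) Ω (W s) (Wr s) (Wt s) hB hk hnd hΩ hvol (hW s).1 (hW s).2
  have hfin : ENNReal.ofReal (4 * τ) * ENNReal.ofReal (∫ z, u z ^ 2) ≤
      ENNReal.ofReal (∫ z, ‖fderiv ℝ u z‖ ^ 2) := by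
    rw [← hNN, ← hEN, hsN, hsE, Finset.mul_sum]
    exact Finset.sum_le_sum hall
  rw [← ENNReal.ofReal_mul hτ0] at hfin
  have hE0 : 0 ≤ ∫ z, ‖fderiv ℝ u z‖ ^ 2 := integral_nonneg fun z => by positivity
  exact (ENNReal.ofReal_le_ofReal_iff hE0).1 hfin

end Pool.Agent.H92.RK
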