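import Pool.Agent.H48.RK.RA2

set_option autoImplicit false

open MeasureTheory Set
open scoped ENNReal

namespace Pool.Agent.H92.RK

open Pool.Agent.H48.RK

theorem pf_RB2 (hRB1 : T_RB1) : T_RB2 := by
  intro S a f f' hS ha hf hR hs
  by_cases hz : rv S = 0
  · have hf0 : ∀ r ∈ Ioi a, f r = 0 := by
      intro r hr
      by_contra hne
      exact rv_zero hS hz r (ha.trans hr) (hs (subset_tsupport f hne))
    refine le_trans (le_of_eq ?_) zero_le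
    rw [setLIntegral_congr_fun (g := fun _ => (0 : ℝ≥0∞)) measurableSet_Ioi]
    · simp
    · intro r hr
      simp [hf0 r hr]
  by_cases ht : rv S = ⊤
  · refine le_trans (le_of_eq ?_) zero_le
    rw [ht]
    simp
  set ρ := (rv S).toReal with hρd
  have hρ : 0 < ρ := ENNReal.toReal_pos hz ht
  have hρe : rv S = ENNReal.ofReal ρ := (ENNReal.ofReal_toReal ht).symm
  have hRre : ∃ R, ∀ r, R ≤ r → (f r).re = 0 := by
    obtain ⟨R, hR⟩ := hR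
    exact ⟨R, fun r hr => by simp [hR r hr]⟩
  have hRim : ∃ R, ∀ r, R ≤ r → (f r).im = 0 := by
    obtain ⟨R, hR⟩ := hR
    exact ⟨R, fun r hr => by simp [hR r hr]⟩
  obtain ⟨a1, a2, a3⟩ := hRB1 S ρ a (fun r => (f r).re) (fun r => (f' r).re) hS hρ ha hρe
    (C1_re hf) hRre ((tsup_re f).trans hs)
  obtain ⟨b1, b2, b3⟩ := hRB1 S ρ a (fun r => (f r).im) (fun r => (f' r).im) hS hρ ha hρe
    (C1_im hf) hRim ((tsup_im f).trans hs)
  have e1 : ∀ r, ‖f' r‖ ^ 2 * r = (f' r).re ^ 2 * r + (f' r).im ^ 2 * r := by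
    intro r
    rw [nsq]
    ring
  have e2 : ∀ r, Real.pi ^ 2 * r ^ 2 / ρ ^ 2 * ‖f r‖ ^ 2 * r =
      Real.pi ^ 2 * r ^ 2 / ρ ^ 2 * (f r).re ^ 2 * r +
        Real.pi ^ 2 * r ^ 2 / ρ ^ 2 * (f r).im ^ 2 * r := by
    intro r
    rw [nsq]
    ring
  have i1 : IntegrableOn (fun r => ‖f' r‖ ^ 2 * r) (Ioi a) := by
    simp_rw [e1]
    exact a1.add b1
  have i2 : IntegrableOn (fun r => Real.pi ^ 2 * r ^ 2 / ρ ^ 2 * ‖f r‖ ^ 2 * r) (Ioi a) := by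
    simp_rw [e2]
    exact a2.add b2
  have key : ∫ r in Ioi a, Real.pi ^ 2 * r ^ 2 / ρ ^ 2 * ‖f r‖ ^ 2 * r ≤
      ∫ r in Ioi a, ‖f' r‖ ^ 2 * r := by
    simp_rw [e1, e2]
    rw [integral_add a2 b2, integral_add a1 b1]
    exact add_le_add a3 b3
  have n1 : 0 ≤ᵐ[volume.restrict (Ioi a)] fun r => ‖f' r‖ ^ 2 * r := by
    filter_upwards [ae_restrict_mem measurableSet_Ioi] with r hr
    have hr' : (0 : ℝ) < r := ha.trans hr
    show (0 : ℝ) ≤ _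
    positivity
  have n2 : 0 ≤ᵐ[volume.restrict (Ioi a)]
      fun r => Real.pi ^ 2 * r ^ 2 / ρ ^ 2 * ‖f r‖ ^ 2 * r := by
    filter_upwards [ae_restrict_mem measurableSet_Ioi] with r hr
    have hr' : (0 : ℝ) < r := ha.trans hr
    show (0 : ℝ) ≤ _
    positivity
  rw [hρe]
  calc ∫⁻ r in Ioi a, ENNReal.ofReal (Real.pi ^ 2 * r ^ 2) / ENNReal.ofReal ρ ^ 2 *
        ENNReal.ofReal (‖f r‖ ^ 2 * r)
      = ∫⁻ r in Ioi a, ENNReal.ofReal (Real.pi ^ 2 * r ^ 2 / ρ ^ 2 * ‖f r‖ ^ 2 * r) := by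
        apply setLIntegral_congr_fun measurableSet_Ioi
        intro r hr
        have hr' : (0 : ℝ) < r := ha.trans hr
        show ENNReal.ofReal (Real.pi ^ 2 * r ^ 2) / ENNReal.ofReal ρ ^ 2 *
          ENNReal.ofReal (‖f r‖ ^ 2 * r) =
            ENNReal.ofReal (Real.pi ^ 2 * r ^ 2 / ρ ^ 2 * ‖f r‖ ^ 2 * r)
        rw [mul_assoc (Real.pi ^ 2 * r ^ 2 / ρ ^ 2), ENNReal.ofReal_mul
          (p := Real.pi ^ 2 * r ^ 2 / ρ ^ 2) (by positivity),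
          ENNReal.ofReal_div_of_pos (by positivity), ENNReal.ofReal_pow hρ.le]
    _ = ENNReal.ofReal (∫ r in Ioi a, Real.pi ^ 2 * r ^ 2 / ρ ^ 2 * ‖f r‖ ^ 2 * r) :=
        (ofReal_integral_eq_lintegral_ofReal i2 n2).symm
    _ ≤ ENNReal.ofReal (∫ r in Ioi a, ‖f' r‖ ^ 2 * r) :=
        ENNReal.ofReal_le_ofReal key
    _ = ∫⁻ r in Ioi a, ENNReal.ofReal (‖f' r‖ ^ 2 * r) :=
        ofReal_integral_eq_lintegral_ofReal i1 n1

end Pool.Agent.H92.RK
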