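import Pool.Agent.H12.RK.CI
import Pool.Agent.H12.RK.FOU
import Pool.Agent.H14.RK.BS2
import Pool.Agent.H14.RK.RA1
import Pool.Agent.H16.RK.CLB
import Pool.Agent.H17.RK.N1
import Pool.Agent.H18.LK.AP
import Pool.Agent.H19.LK.NE
import Pool.Agent.H19.RK.CIC
import Pool.Agent.H19.RK.FAR
import Pool.Agent.H19.RK.N2
import Pool.Agent.H19.RK.WIR
import Pool.Agent.H3.LK.SCL
import Pool.Agent.H33.RK.CB1
import Pool.Agent.H33.RK.DFA
import Pool.Agent.H33.RK.NEA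
import Pool.Agent.H34.RK.UP2
import Pool.Agent.H48.RK.RA2
import Pool.Agent.H49.RK.RHO
import Pool.Agent.H50.RK.POF
import Pool.Agent.H51.RK.CSN
import Pool.Agent.H53.RK.CIM
import Pool.Agent.H54.RK.UP1
import Pool.Agent.H56.RK.BS1
import Pool.Agent.H59.RK.RB1
import Pool.Agent.H6.RK.CIL
import Pool.Agent.H65.RK.FIN
import Pool.Agent.H65.RK.LOW
import Pool.Agent.H69.RK.FA0
import Pool.Agent.H69.RK.LPO
import Pool.Agent.H69.RK.TRA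
import Pool.Agent.H74.RK.CB2
import Pool.Agent.H74.RK.HOL
import Pool.Agent.H77.RK.CIA
import Pool.Agent.H77.RK.CIH
import Pool.Agent.H86.RK.CLA
import Pool.Agent.H86.RK.DFB
import Pool.Agent.H91.RK.N3
import Pool.Agent.H92.RK.KEY
import Pool.Agent.H92.RK.RB2

set_option autoImplicit false

/-! MP_8f7db2_an, rotational symmetry: assembly of the modules. -/

namespace Pool.Agent.H92.RK

theorem all_of : T_FIN := by
  have hBS1 : T_BS1 := Pool.Agent.H56.RK.pf_BS1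
  have hBS2 : T_BS2 := Pool.Agent.H14.RK.pf_BS2 hBS1
  have hN1 : T_N1 := Pool.Agent.H17.RK.pf_N1
  have hN2 : T_N2 := Pool.Agent.H19.RK.pf_N2
  have hN3 : T_N3 := Pool.Agent.H91.RK.pf_N3 hN1 hN2
  have hFOU : T_FOU := Pool.Agent.H12.RK.pf_FOU
  have hCB1 : T_CB1 := Pool.Agent.H33.RK.pf_CB1 hN3 hFOU
  have hRB1 : T_RB1 := Pool.Agent.H59.RK.pf_RB1
  have hRB2 : T_RB2 := Pool.Agent.H92.RK.pf_RB2 hRB1
  have hCIL : T_CIL := Pool.Agent.H6.RK.pf_CIL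
  have hCIM : T_CIM := Pool.Agent.H53.RK.pf_CIM
  have hCIH : T_CIH := Pool.Agent.H77.RK.pf_CIH
  have hCIA : T_CIA := Pool.Agent.H77.RK.pf_CIA
  have hCI : T_CI := Pool.Agent.H12.RK.pf_CI hCIL hCIM hCIH hCIA
  have hCIC : T_CIC := Pool.Agent.H19.RK.pf_CIC hCI
  have hHOL : T_HOL := Pool.Agent.H74.RK.pf_HOL
  have hFA0 : T_FA0 := Pool.Agent.H69.RK.pf_FA0 hCIC hHOL
  have hLPO : T_LPO := Pool.Agent.H69.RK.pf_LPO
  have hRHO : T_RHO := Pool.Agent.H49.RK.pf_RHO hLPO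
  have hCB2 : T_CB2 := Pool.Agent.H74.RK.pf_CB2 hRB2 hFA0 hRHO
  have hRA1 : T_RA1 := Pool.Agent.H14.RK.pf_RA1
  have hRA2 : T_RA2 := Pool.Agent.H48.RK.pf_RA2 hRA1
  have hWIR : T_WIR := Pool.Agent.H19.RK.pf_WIR hFOU
  have hCSN : T_CSN := Pool.Agent.H51.RK.pf_CSN
  have hNEA : T_NEA := Pool.Agent.H33.RK.pf_NEA hFOU hWIR hCSN
  have hFAR : T_FAR := Pool.Agent.H19.RK.pf_FAR hFOU hCIC hHOL
  have hCLA : T_CLA := Pool.Agent.H86.RK.pf_CLA hRA2 hNEA hFAR hRHO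
  have hCLB : T_CLB := Pool.Agent.H16.RK.pf_CLB hCB1 hCB2
  have hDFA : T_DFA := Pool.Agent.H33.RK.pf_DFA
  have hDFB : T_DFB := Pool.Agent.H86.RK.pf_DFB hDFA
  have hPOF : T_POF := Pool.Agent.H50.RK.pf_POF hLPO
  have hKEY : T_KEY := Pool.Agent.H92.RK.pf_KEY hPOF hDFB hCLA hCLB
  have hLOW : T_LOW := Pool.Agent.H65.RK.pf_LOW hKEY
  have hUP1 : T_UP1 := Pool.Agent.H54.RK.pf_UP1
  have hUP2 : T_UP2 := Pool.Agent.H34.RK.UP2.pf_UP2 hLPO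
  have hTRA : T_TRA := Pool.Agent.H69.RK.pf_TRA
  have hFIN : T_FIN := Pool.Agent.H65.RK.pf_FIN hBS2 hLOW hUP1 hUP2 hTRA Pool.Agent.H3.LK.pf_SCL Pool.Agent.H19.LK.pf_NE Pool.Agent.H18.LK.pf_AP
  exact hFIN

end Pool.Agent.H92.RK
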