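import Pool.Agent.H70.RK.T2

/-!
# The relativizing consequences of Σ_k ⊆ BQP: row LST
-/

set_option autoImplicit false

namespace Pool.Agent.H92.RK

open Finset Filter Pool.Agent.H6.NB Pool.Agent.H70.OQ
open Pool.Agent.H78.XQ Pool.Agent.H70.RK

theorem pf_LST (hMUG : Pool.Agent.H70.RK.T_MUG) (hMUM : Pool.Agent.H70.RK.T_MUM)
    (hNUM : Pool.Agent.H70.RK.T_NUM) (hNEW : Pool.Agent.H70.RC.T_NEW) :
    Pool.Agent.H70.RK.T_LST := by
  classical
  intro k V G t hk hG c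
  filter_upwards [hNUM k c hk] with n hn N hN D
  obtain ⟨h1, h2, h3, h4, h5, h6, -⟩ := hn N hN
  obtain ⟨m1, m2, m3⟩ := hMUM k n N
  have hY : Nonempty ((Fin n → Bool) → Bool) := ⟨fun _ => false⟩
  obtain ⟨l, hl1, hl2⟩ := hNEW (Se k n N) ((Fin n → Bool) → Bool) mu
    (fun X σ => GoodS V G D X σ) (2 ^ n + 1) m1 m2 (fun X => by
      have h7 := hMUG k V G t hk hG n N h1 h2 h3 h4 h5 D X
      linarith) (Nat.le_add_left 1 (2 ^ n)) (by
      rw [Fintype.card_fun, Fintype.card_fun, Fintype.card_bool, Fintype.card_fin]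
      exact Nat.pow_le_pow_right (by norm_num) (Nat.le_succ _))
  refine ⟨l, fun i => m3 _ (hl1 i), fun X => ?_⟩
  have h8 := hl2 X
  refine le_trans (le_of_eq ?_) h8
  congr 2

end Pool.Agent.H92.RK
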