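import Pool.Agent.H70.RK.T2

/-!
# The relativizing consequences of Σ_k ⊆ BQP: row MUG
-/

set_option autoImplicit false

namespace Pool.Agent.H92.RK

open Finset Filter
open Pool.Agent.H6.NB (QAlg inst qs)
open Pool.Agent.H78.XQ (T_MAS m0 mB wln rns)
open Pool.Agent.H70.RK

theorem hn_card_pos {I : Type} {Ch : I → Type} [Finite I] [∀ s, Finite (Ch s)]
    [∀ s, Nonempty (Ch s)] (m : ℕ) : Nonempty (Hn I Ch m) := by
  induction m with
  | zero => exact ⟨()⟩
  | succ m ih =>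
    obtain ⟨h⟩ := ih
    exact ⟨(fun x => Classical.choice inferInstance, h)⟩

theorem pf_MUG (hBLG : Pool.Agent.H70.RK.T_BLG) (hRZG : Pool.Agent.H70.RK.T_RZG)
    (hHYC : Pool.Agent.H70.RK.T_HYC) (hMAS : T_MAS) : Pool.Agent.H70.RK.T_MUG := by
  classical
  intro k V G t hk hG n N hN2 h3k hnN h4 h2N D X
  obtain ⟨ε, hε⟩ : ∃ ε : ℝ, ε = 2 ^ (N + 1) *
    (k * (2 ^ N) ^ k * (3 * (4 * N ^ (k + 2) / 2 ^ (4 * n)) ^ N)) := ⟨_, rfl⟩
  obtain ⟨Δ, hΔ⟩ : ∃ Δ : ℝ, Δ = ∑ p : Bi k n N, (1 / 8 : ℝ) ^ (p.1.1.length + 20) := ⟨_, rfl⟩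
  rw [← hε, ← hΔ]
  have hAd : (0 : ℝ) < Fintype.card (Hi k n N) := by
    have : 0 < Fintype.card (Hi k n N) := Fintype.card_pos_iff.2 (hn_card_pos k)
    exact_mod_cast this
  have hAr : (0 : ℝ) < Fintype.card (Ar k n N) := by
    have : 0 < Fintype.card (Ar k n N) := Fintype.card_pos_iff.2 ⟨fun _ _ => false⟩
    exact_mod_cast this
  obtain ⟨nA, hnA⟩ : ∃ nA : ℝ, nA = (Fintype.card (Hi k n N) : ℝ) * Fintype.card (Ar k n N) :=
    ⟨_, rfl⟩
  have hnAA : 0 < nA := hnA ▸ mul_pos hAd hAr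
  obtain ⟨U, hU⟩ : ∃ U : Bl k n N → ℝ, U = fun P => ∏ p : Bi k n N,
    m0 (qs (hl p)) (hl p).length (wln (hl p)) (P p) := ⟨_, rfl⟩
  have hU1 : ∑ P, U P = 1 := by
    rw [hU]
    have h1 := Finset.prod_univ_sum (fun p : Bi k n N => (univ : Finset (CB (hl p))))
      (fun p c => m0 (qs (hl p)) (hl p).length (wln (hl p)) c)
    rw [Fintype.piFinset_univ] at h1
    rw [← h1]
    exact Finset.prod_eq_one fun p _ => (hMAS _ _ 0 _).2.1
  have hU0 : ∀ P, 0 ≤ U P := by
    intro P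
    rw [hU]
    exact Finset.prod_nonneg fun p _ => (hMAS _ _ 0 _).1 _
  have hah : ∀ (a : Hi k n N) (h : Ar k n N),
      ∑ P : Bl k n N, U P * (if GoodS V G D X (a, h, P) then 1 else 0) - Δ ≤
      ∑ P : Bl k n N, (∏ p : Bi k n N, mB (qs (hl p)) (hl p).length (rns (hl p)) (wln (hl p))
        (adr k a p.1 p.2.1 p.2.2) (P p)) * (if GoodS V G D X (a, h, P) then 1 else 0) := by
    intro a h
    rw [hU, hΔ]
    refine hHYC (Bi k n N) (fun p => CB (hl p))
      (fun p c => m0 (qs (hl p)) (hl p).length (wln (hl p)) c)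
      (fun p c => mB (qs (hl p)) (hl p).length (rns (hl p)) (wln (hl p))
        (adr k a p.1 p.2.1 p.2.2) c)
      (fun P => if GoodS V G D X (a, h, P) then 1 else 0)
      (fun p => (1 / 8 : ℝ) ^ (p.1.1.length + 20))
      (fun p c => (hMAS _ _ 0 _).1 _) (fun p => (hMAS _ _ 0 _).2.1.le)
      (fun p c => ((hMAS _ _ _ _).2.2 _).1 _) (fun p => ((hMAS _ _ _ _).2.2 _).2)
      (fun P => by split_ifs <;> norm_num) (fun p => by positivity) ?_
    intro p P
    exact hBLG k V G t hk hG n N hN2 h3k hnN h2N D X a h P p (adr k a p.1 p.2.1 p.2.2)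
  have hsum := Finset.sum_le_sum fun (a : Hi k n N) (_ : a ∈ univ) =>
    Finset.sum_le_sum fun (h : Ar k n N) (_ : h ∈ univ) => hah a h
  simp only [Finset.sum_sub_distrib, Finset.sum_const, Finset.card_univ, nsmul_eq_mul] at hsum
  -- the left side
  have hleft : (1 - ε) * nA ≤ ∑ a : Hi k n N, ∑ h : Ar k n N, ∑ P : Bl k n N,
      U P * (if GoodS V G D X (a, h, P) then 1 else 0) := by
    have h1 : ∑ a : Hi k n N, ∑ h : Ar k n N, ∑ P : Bl k n N,
        U P * (if GoodS V G D X (a, h, P) then (1 : ℝ) else 0) =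
        ∑ P : Bl k n N, U P * ∑ a : Hi k n N, ∑ h : Ar k n N,
          (if GoodS V G D X (a, h, P) then (1 : ℝ) else 0) := by
      simp only [Finset.mul_sum]
      have h2 : ∀ a : Hi k n N, ∑ h : Ar k n N, ∑ P : Bl k n N,
          U P * (if GoodS V G D X (a, h, P) then (1 : ℝ) else 0) =
          ∑ P : Bl k n N, ∑ h : Ar k n N,
            U P * (if GoodS V G D X (a, h, P) then (1 : ℝ) else 0) :=
        fun a => Finset.sum_comm
      simp only [h2]
      exact Finset.sum_comm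
    rw [h1]
    have h2 : (1 - ε) * nA = ∑ P : Bl k n N, U P * ((1 - ε) * nA) := by
      rw [← Finset.sum_mul, hU1, one_mul]
    rw [h2]
    refine Finset.sum_le_sum fun P _ => mul_le_mul_of_nonneg_left ?_ (hU0 P)
    have h3 := hRZG k V G t hk hG n N hN2 hnN h4 D X P
    rw [← hε, ← hnA] at h3
    exact h3
  have hright : ∑ a : Hi k n N, ∑ h : Ar k n N, ∑ P : Bl k n N,
      (∏ p : Bi k n N, mB (qs (hl p)) (hl p).length (rns (hl p)) (wln (hl p))
        (adr k a p.1 p.2.1 p.2.2) (P p)) * (if GoodS V G D X (a, h, P) then (1 : ℝ) else 0) =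
      nA * ∑ σ : Se k n N, mu σ * (if GoodS V G D X σ then 1 else 0) := by
    rw [Fintype.sum_prod_type, Finset.mul_sum]
    refine Finset.sum_congr rfl fun a _ => ?_
    rw [Fintype.sum_prod_type, Finset.mul_sum]
    refine Finset.sum_congr rfl fun h _ => ?_
    rw [Finset.mul_sum]
    refine Finset.sum_congr rfl fun P _ => ?_
    unfold mu
    simp only
    rw [← hnA, ← mul_assoc, ← mul_assoc, mul_one_div_cancel hnAA.ne', one_mul]
  rw [hright] at hsum
  have hconst : (Fintype.card (Hi k n N) : ℝ) * ((Fintype.card (Ar k n N) : ℝ) * Δ) =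
      nA * Δ := by
    rw [hnA]
    ring
  rw [hconst] at hsum
  have h9 : (1 - ε) * nA - nA * Δ ≤
      nA * ∑ σ : Se k n N, mu σ * (if GoodS V G D X σ then 1 else 0) :=
    (sub_le_sub_right hleft _).trans hsum
  have h10 : nA * (1 - (Δ + ε)) = (1 - ε) * nA - nA * Δ := by ring
  have hfin : nA * (1 - (Δ + ε)) ≤
      nA * ∑ σ : Se k n N, mu σ * (if GoodS V G D X σ then 1 else 0) := h10.trans_le h9
  exact le_of_mul_le_mul_left hfin hnAA

end Pool.Agent.H92.RK
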