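import Pool.Agent.H70.RK.T2

/-!
# MUM: the masses
-/

set_option autoImplicit false

namespace Pool.Agent.H92.RK

open Finset Pool.Agent.H6.NB Pool.Agent.H70.OQ Pool.Agent.H78.XQ
open Pool.Agent.H70.RC (Term DNF pv fv psat run Bad Arry Right RightP sec arrp)
open Pool.Agent.H70.RK

theorem pf_MUM (hMAS : T_MAS) : Pool.Agent.H70.RK.T_MUM := by
  classical
  intro k n N
  refine ⟨fun σ => ?_, ?_, fun σ hσ p => ?_⟩
  · unfold Pool.Agent.H70.RK.mu
    exact mul_nonneg (by positivity) (Finset.prod_nonneg fun p _ =>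
      ((hMAS _ _ _ _).2.2 _).1 _)
  · set cc : ℝ := (Fintype.card (Hi k n N) : ℝ) * Fintype.card (Ar k n N) with hcc
    have h1 : ∀ a : Hi k n N, ∀ h : Ar k n N, ∑ P : Bl k n N, mu (a, h, P) ≤ 1 / cc := by
      intro a h
      have h2 : ∑ P : Bl k n N, mu (a, h, P) = 1 / cc * ∏ p : Bi k n N, ∑ c : CB (hl p),
          mB (qs (hl p)) (hl p).length (rns (hl p)) (wln (hl p)) (adr k a p.1 p.2.1 p.2.2) c := by
        rw [Fintype.prod_sum, Finset.mul_sum]
        rfl
      rw [h2]
      have h3 : ∏ p : Bi k n N, ∑ c : CB (hl p),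
          mB (qs (hl p)) (hl p).length (rns (hl p)) (wln (hl p)) (adr k a p.1 p.2.1 p.2.2) c ≤ 1 :=
        Finset.prod_le_one (fun p _ => Finset.sum_nonneg fun c _ => ((hMAS _ _ _ _).2.2 _).1 _)
          fun p _ => ((hMAS _ _ _ _).2.2 _).2
      calc 1 / cc * _ ≤ 1 / cc * 1 := mul_le_mul_of_nonneg_left h3 (by positivity)
        _ = _ := mul_one _
    calc ∑ σ : Se k n N, mu σ = ∑ a : Hi k n N, ∑ h : Ar k n N, ∑ P : Bl k n N, mu (a, h, P) := by
          rw [Fintype.sum_prod_type]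
          refine Finset.sum_congr rfl fun a _ => ?_
          rw [Fintype.sum_prod_type]
      _ ≤ ∑ _a : Hi k n N, ∑ _h : Ar k n N, 1 / cc :=
          Finset.sum_le_sum fun a _ => Finset.sum_le_sum fun h _ => h1 a h
      _ = cc / cc := by
          rw [Finset.sum_const, Finset.sum_const, Finset.card_univ, Finset.card_univ, nsmul_eq_mul,
            nsmul_eq_mul, hcc]
          ring
      _ ≤ 1 := div_self_le_one _
  · by_contra hcon
    apply hσ
    unfold Pool.Agent.H70.RK.mu
    rw [Finset.prod_eq_zero (Finset.mem_univ p), mul_zero]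
    unfold mB
    exact if_neg hcon

end Pool.Agent.H92.RK
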