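import Pool.Agent.H70.RK.T2
import Pool.Agent.H92.RC.RZG

/-!
# The relativizing consequences of Σ_k ⊆ BQP: row RZG
-/

set_option autoImplicit false

namespace Pool.Agent.H92.RK

open Finset Filter
open Pool.Agent.H6.NB (QAlg inst)
open Pool.Agent.H70.RK

lemma card_Li' (n N : ℕ) : Fintype.card (Li n N) ≤ 2 ^ (N + 1) := by
  have h : Function.Injective (fun s : Li n N => Pool.Agent.H92.RC.encS N s.1) := by
    intro s s' hss
    exact Subtype.ext (Pool.Agent.H92.RC.encS_inj s.2.2 s'.2.2 hss)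
  have h1 := Fintype.card_le_of_injective _ h
  rwa [Fintype.card_fun, Fintype.card_bool, Fintype.card_fin] at h1

lemma gsz_mono {s s' : ℕ} (hs : s ≤ s') : ∀ (m : ℕ) {T : Type} (G : Gt T m), gsz s m G →
    gsz s' m G := by
  intro m
  induction m with
  | zero => intro T G _; trivial
  | succ m ih =>
    intro T G h
    exact ⟨ih (T := List T) G h.1, fun L hL => (h.2 L hL).trans hs⟩

lemma On_mono {W : Type} {U U' : W → Prop} (h : ∀ w, U w → U' w) : ∀ T : TR W, T.On U → T.On U'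
  | .leaf _, _ => trivial
  | .node _ l r, hT => ⟨h _ hT.1, On_mono h l hT.2.1, On_mono h r hT.2.2⟩

theorem pf_RZG (hRZK : Pool.Agent.H70.RK.T_RZK) (hCVF : Pool.Agent.H70.RK.T_CVF)
    (hLIT : Pool.Agent.H70.RK.T_LIT) (hGTL : Pool.Agent.H70.RK.T_GTL) :
    Pool.Agent.H70.RK.T_RZG := by
  classical
  intro k V G t hk hG n N hN2 hnN h4 D X P
  obtain ⟨g1, g2, g3, g4, g5, g6, g7⟩ := hGTL
  have g0 : Ar k n N := fun _ _ => false
  have hLT := hLIT k V n N D g0 P hk
  -- length of the queries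
  have hts : ∀ s : Li n N, t s.1 + 1 ≤ N := by
    intro s
    have h1 := hG.sq s.1
    have h2 := s.2.2
    by_contra hcon
    have h3 : N + 1 ≤ t s.1 + 1 := by omega
    have h5 : (N + 1) ^ 2 ≤ (t s.1 + 1) ^ 2 := Nat.pow_le_pow_left h3 2
    nlinarith
  -- the gate does not depend on the arrays
  have hgs : ∀ (s : List Bool) (g : Ar k n N), gs V G D X g P s = gs V G D X g0 P s := by
    intro s g
    unfold gs
    refine g6 _ _ _ _ k (G s) fun T hT => ?_
    refine ((hCVF _ (t s) T (hG.ql s T hT)).1 _).2.2.2.2.2 _ fun w _ hw => ?_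
    exact ((hLIT k V n N D g P hk).2.2 X).2.1 g0 w fun x hx => hw ⟨x, hx⟩
  -- bad pairs for one instance
  have hone : ∀ s : Li n N,
      (∑ p : Hi k n N × Ar k n N, if gd (lbv V D X p.2 P) N k N pa p.1 (gs V G D X g0 P s.1)
        then (0 : ℝ) else 1) ≤ k * (2 ^ N) ^ k * (3 * (4 * N ^ (k + 2) / 2 ^ (4 * n)) ^ N) *
          ((Fintype.card (Hi k n N) : ℝ) * Fintype.card (Ar k n N)) := by
    intro s
    have h1 := hRZK (Li n N) (List Bool) (fun s => Ck s.1) N (2 ^ (4 * n)) (2 ^ N) k N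
      (pa (k := k) (n := n) (N := N)) (fun g => lbv V D X (fun s x => g ⟨s, x⟩) P)
      (gs V G D X g0 P s.1) hLT.1
      (fun g x => ((hLIT k V n N D (fun s x => g ⟨s, x⟩) P hk).2.2 X).1 x)
      (fun g g' w hw => ((hLIT k V n N D (fun s x => g ⟨s, x⟩) P hk).2.2 X).2.1
        (fun s x => g' ⟨s, x⟩) w hw)
      ((g2 _ _ _ _ k _).2 (gsz_mono (Nat.pow_le_pow_right (by norm_num) (hts s)) k _
        (hG.len s.1)))
      (fun T hT => ?_) (fun s' => ?_) (Nat.one_le_two_pow) (by omega) (Nat.one_le_two_pow) ?_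
    · let e : (Ce (Li n N) (fun s => Ck s.1) k → Bool) ≃ Ar k n N :=
        { toFun := fun g s x => g ⟨s, x⟩
          invFun := fun h x => h x.1 x.2
          left_inv := fun g => rfl
          right_inv := fun h => rfl }
      have h2 : (Nat.card {x : Hn (Li n N) (fun s => Ck s.1) k ×
          (Ce (Li n N) (fun s => Ck s.1) k → Bool) // ¬ gd (lbv V D X (fun s y => x.2 ⟨s, y⟩) P) N k
            N pa x.1 (gs V G D X g0 P s.1)} : ℝ) =
          ∑ p : Hi k n N × Ar k n N, if gd (lbv V D X p.2 P) N k N pa p.1 (gs V G D X g0 P s.1)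
            then (0 : ℝ) else 1 := by
        have h3 : Nat.card {x : Hn (Li n N) (fun s => Ck s.1) k ×
            (Ce (Li n N) (fun s => Ck s.1) k → Bool) // ¬ gd (lbv V D X (fun s y => x.2 ⟨s, y⟩) P) N
              k N pa x.1 (gs V G D X g0 P s.1)} = Nat.card {p : Hi k n N × Ar k n N //
                ¬ gd (lbv V D X p.2 P) N k N pa p.1 (gs V G D X g0 P s.1)} :=
          Nat.card_congr (Equiv.subtypeEquiv (Equiv.prodCongr (Equiv.refl _) e)
            (fun x => Iff.rfl))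
        rw [h3, Nat.card_eq_fintype_card, Fintype.card_subtype, ← Finset.sum_boole]
        refine Finset.sum_congr rfl fun p _ => ?_
        by_cases hp : gd (lbv V D X p.2 P) N k N pa p.1 (gs V G D X g0 P s.1)
        · rw [if_neg (not_not_intro hp), if_pos hp]
        · rw [if_pos hp, if_neg hp]
      have h3 : Nat.card (Ce (Li n N) (fun s => Ck s.1) k → Bool) = Fintype.card (Ar k n N) := by
        rw [Nat.card_congr e, Nat.card_eq_fintype_card]
      have h5 : Nat.card (Hn (Li n N) (fun s => Ck s.1) k) = Fintype.card (Hi k n N) :=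
        Nat.card_eq_fintype_card
      rw [h2, h3, h5] at h1
      have h6 : (0 : ℝ) < ((2 : ℝ) ^ (4 * n)) ^ N := by positivity
      have h7 : (k : ℝ) * (2 ^ N) ^ k * (3 * (4 * (N : ℝ) ^ (k + 2) / 2 ^ (4 * n)) ^ N) *
          ((Fintype.card (Hi k n N) : ℝ) * Fintype.card (Ar k n N)) =
          (k : ℝ) * (2 ^ N) ^ k * (3 * (4 * (N * ((N : ℝ) ^ k * N))) ^ N) *
          ((Fintype.card (Hi k n N) : ℝ) * Fintype.card (Ar k n N)) / ((2 : ℝ) ^ (4 * n)) ^ N := by
        rw [div_pow, show 4 * ((N : ℝ) * ((N : ℝ) ^ k * N)) = 4 * (N : ℝ) ^ (k + 2) by ring]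
        ring
      rw [h7, le_div_iff₀ h6]
      push_cast at h1
      exact h1
    · unfold gs at hT
      rw [g1] at hT
      obtain ⟨T0, hT0, rfl⟩ := List.mem_map.1 hT
      obtain ⟨c1, c2, c3, c4, -⟩ := (hCVF (fun w => ∃ x : Ce (Li n N) (fun s => Ck s.1) k, pa x = w)
        (t s.1) T0 (hG.ql s.1 T0 hT0)).1 (lbv V D X g0 P)
      refine ⟨?_, c2, On_mono (fun w hw => hw.1) _ c4⟩
      have h5 := hG.dp s.1 T0 hT0
      have h6 := hts s
      omega
    · rw [Fintype.card_fun, Fintype.card_bool, Fintype.card_fin]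
      exact Nat.pow_le_pow_right (by norm_num) (Nat.mul_le_mul_left 4 s'.2.1)
    · calc 4 * (N * (N ^ k * N)) = 4 * N ^ (k + 2) := by ring
        _ ≤ _ := h4
  -- union bound
  have hpt : ∀ p : Hi k n N × Ar k n N, (1 : ℝ) - ∑ s : Li n N,
      (if gd (lbv V D X p.2 P) N k N pa p.1 (gs V G D X g0 P s.1) then (0 : ℝ) else 1) ≤
      if GoodS V G D X (p.1, p.2, P) then (1 : ℝ) else 0 := by
    intro p
    have h0 : ∀ s ∈ (univ : Finset (Li n N)), (0 : ℝ) ≤
        (if gd (lbv V D X p.2 P) N k N pa p.1 (gs V G D X g0 P s.1) then (0 : ℝ) else 1) := by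
      intro s _
      split_ifs <;> norm_num
    by_cases hg : GoodS V G D X (p.1, p.2, P)
    · rw [if_pos hg]
      have := Finset.sum_nonneg h0
      linarith
    · rw [if_neg hg]
      unfold GoodS at hg
      push Not at hg
      obtain ⟨s, hs⟩ := hg
      simp only at hs
      rw [hgs] at hs
      have h1 := Finset.single_le_sum h0 (mem_univ s)
      rw [if_neg hs] at h1
      linarith
  have hsum := Finset.sum_le_sum (fun p (_ : p ∈ (univ : Finset (Hi k n N × Ar k n N))) => hpt p)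
  rw [Finset.sum_sub_distrib, Finset.sum_comm] at hsum
  obtain ⟨nA, hnA⟩ : ∃ nA : ℝ, nA = (Fintype.card (Hi k n N) : ℝ) * Fintype.card (Ar k n N) :=
    ⟨_, rfl⟩
  have hcard : ∑ _p : Hi k n N × Ar k n N, (1 : ℝ) = nA := by
    rw [Finset.sum_const, Finset.card_univ, Fintype.card_prod, nsmul_eq_mul, mul_one, hnA]
    push_cast
    rfl
  rw [hcard] at hsum
  have hS := Finset.sum_le_sum (fun s (_ : s ∈ (univ : Finset (Li n N))) => hone s)
  rw [Finset.sum_const, nsmul_eq_mul, Finset.card_univ, ← hnA] at hS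
  rw [← hnA]
  have hnA0 : 0 ≤ nA := by rw [hnA]; positivity
  obtain ⟨q, hq⟩ : ∃ q : ℝ, q = k * (2 ^ N) ^ k * (3 * (4 * N ^ (k + 2) / 2 ^ (4 * n)) ^ N) :=
    ⟨_, rfl⟩
  have hq0 : 0 ≤ q := by rw [hq]; positivity
  rw [← hq] at hS ⊢
  have hL : (Fintype.card (Li n N) : ℝ) ≤ 2 ^ (N + 1) := by exact_mod_cast card_Li' n N
  have hM := mul_le_mul_of_nonneg_right hL (mul_nonneg hq0 hnA0)
  have hgoal : ∑ p : Hi k n N × Ar k n N, (if GoodS V G D X (p.1, p.2, P) then (1 : ℝ) else 0) =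
      ∑ a : Hi k n N, ∑ h : Ar k n N, if GoodS V G D X (a, h, P) then (1 : ℝ) else 0 := by
    rw [Fintype.sum_prod_type]
  rw [← hgoal]
  have h9 : (1 - 2 ^ (N + 1) * q) * nA = nA - 2 ^ (N + 1) * (q * nA) := by ring
  rw [h9]
  linarith

end Pool.Agent.H92.RK
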